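import Mathlib
import Pool.Agent.Lib.helper29.Orbit2

set_option autoImplicit false

namespace Pool.Agent.Results.MP_6c6e33_an.Unbounded

open MeasureTheory Pool.Agent.Lib.H29.Orbit

/-- No ordering of an overcomplete Gabor frame, by `ℕ` or by `ℤ`, is the orbit of a bounded
operator. -/
theorem result : ∀ (a b : ℝ) (g : Lp ℂ 2 (volume : Measure ℝ))
    (v : ℤ × ℤ → Lp ℂ 2 (volume : Measure ℝ)), 0 < a → 0 < b → IsGabor a b g v → IsFrame v →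
    ¬ IsRieszBasis v →
    (∀ σ : ℕ ≃ ℤ × ℤ, ¬ BoundedRep (v ∘ σ)) ∧ (∀ σ : ℤ ≃ ℤ × ℤ, ¬ BoundedRep (v ∘ σ)) := by
  intro a b g v _ _ hv hf hR
  obtain ⟨h0, h1⟩ := gabor_norm hv hf
  have : Fact ((2 : ENNReal) ≠ ⊤) := ⟨by norm_num⟩
  obtain ⟨e⟩ := exists_basis hf h0 h1
  exact ⟨fun σ h => hR (abstract_nat e hf h0 h1 σ h),
    fun σ h => hR (abstract_int e hf h0 h1 (gabor_cov hv) σ h)⟩

end Pool.Agent.Results.MP_6c6e33_an.Unbounded
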